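import Pool.Agent.Work.MP_f07634_pr.FM

set_option autoImplicit false

namespace Pool.Agent.Work.MPf07634

open Finset

variable {N : ℕ}

/-- monotonicity of departures when a service is added. -/
theorem Dep_insert_sub {A S : Finset (Fin (N+1))} {y x : Fin (N+1)} (hlt : A.card < S.card)
    (hxy : x ≠ y) (hx : x ∈ Dep A (insert y S)) : x ∈ Dep A S := by
  have hsub : S ⊆ insert y S := Finset.subset_insert _ _
  have hle : A.card ≤ (insert y S).card := hlt.le.trans (Finset.card_le_card hsub)
  have hle' : A.card < (insert y S).card := hlt.trans_le (Finset.card_le_card hsub)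
  rw [mem_Dep] at hx ⊢
  have h1 : x ∈ S := by
    rcases Finset.mem_insert.1 hx.1 with h | h
    · exact absurd h hxy
    · exact h
  refine ⟨h1, hx.2.trans ?_⟩
  have hcmp := (queue_spec hle).cmp (queue_spec hlt.le) (fun _ => le_rfl)
    (fun x => ind_mono hsub x) (by rw [sum_ind, sum_ind]; exact hle')
  have := hcmp (x - 1)
  omega

/-- Key lemma: removing the service at `y` does not change the output just before `y`, provided
the output there consists of customers only. -/
theorem key_agree {A A' S : Finset (Fin (N+1))} {y : Fin (N+1)} (hAA : A ⊆ A')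
    (hlt : A'.card < S.card) (hy : y ∉ S)
    (hall : ∀ x : Fin (N+1), x.val < y.val → x ∈ Dep A' S) :
    ∀ x : Fin (N+1), x.val < y.val → (x ∈ Dep A S ↔ x ∈ Dep A (insert y S)) := by
  have hsub : S ⊆ insert y S := Finset.subset_insert _ _
  have hA : A.card < S.card := (Finset.card_le_card hAA).trans_lt hlt
  have hA2 : A.card < (insert y S).card := hA.trans_le (Finset.card_le_card hsub)
  -- an idle service
  obtain ⟨u, huS, huD⟩ : ∃ u ∈ S, u ∉ Dep A' S := by
    by_contra hcon
    push Not at hcon
    have h1 : S ⊆ Dep A' S := fun u hu => hcon u hu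
    have h2 := Finset.card_le_card h1
    rw [card_Dep hlt.le] at h2
    omega
  have huy : y.val < u.val := by
    by_contra h
    push Not at h
    rcases Nat.lt_or_eq_of_le h with h' | h'
    · exact huD (hall u h')
    · exact hy (Fin.ext h' ▸ huS)
  obtain ⟨v, rfl⟩ : ∃ v, u = v + 1 := ⟨u - 1, by simp⟩
  have hq'0 : queue A' S (v+1) = 0 := by
    have h1 := queue_spec hlt.le v
    have h2 : ¬ (1 ≤ queue A' S v + ind A' (v+1)) := by
      intro h; exact huD (mem_Dep_succ.2 ⟨huS, h⟩)
    omega
  have hq0 : queue A S (v+1) = 0 := by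
    have := (queue_spec hA.le).cmp (queue_spec hlt.le) (fun x => ind_mono hAA x)
      (fun _ => le_rfl) (by rw [sum_ind, sum_ind]; exact hA) (v+1)
    omega
  have hqp0 : queue A (insert y S) (v+1) = 0 := by
    have := (queue_spec hA2.le).cmp (queue_spec hA.le) (fun _ => le_rfl)
      (fun x => ind_mono hsub x) (by rw [sum_ind, sum_ind]; exact hA2) (v+1)
    omega
  have hstep : ∀ x : Fin (N+1), x + 1 ≠ y → queue A S x = queue A (insert y S) x →
      queue A S (x+1) = queue A (insert y S) (x+1) := by
    intro x hx h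
    rw [queue_spec hA.le x, queue_spec hA2.le x, h]
    have : ind (insert y S) (x+1) = ind S (x+1) := by
      unfold ind
      simp [hx]
    rw [this]
  -- agreement from `u` up to the last site
  have hup : ∀ k : ℕ, ∀ x : Fin (N+1), x.val = (v+1).val + k →
      queue A S x = queue A (insert y S) x := by
    intro k
    induction k with
    | zero =>
      intro x hx
      have : x = v + 1 := Fin.ext (by simpa using hx)
      rw [this, hq0, hqp0]
    | succ k ih =>
      intro x hx
      obtain ⟨w, rfl⟩ : ∃ w, x = w + 1 := ⟨x - 1, by simp⟩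
      have hw : w ≠ Fin.last N := by
        intro hh
        have h0 : w + 1 = 0 := by rw [hh]; simp
        rw [h0] at hx
        simp at hx
      have hval : (w + 1).val = w.val + 1 := Fin.val_add_one_of_lt (Fin.lt_last_iff_ne_last.mpr hw)
      refine hstep w ?_ (ih w (by omega))
      intro hh
      rw [hh] at hx
      omega
  have hlast : queue A S (Fin.last N) = queue A (insert y S) (Fin.last N) := by
    refine hup (N - (v+1).val) _ ?_
    have := (v+1).isLt
    simp only [Fin.val_last]
    omega
  have hlow : ∀ k : ℕ, ∀ x : Fin (N+1), x.val = k → x.val < y.val →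
      queue A S (x - 1) = queue A (insert y S) (x - 1) := by
    intro k
    induction k with
    | zero =>
      intro x hx _
      have h0 : x = 0 := Fin.ext (by simpa using hx)
      have : x - 1 = Fin.last N := by
        rw [h0, sub_eq_iff_eq_add]; simp
      rw [this]; exact hlast
    | succ k ih =>
      intro x hx hxy
      obtain ⟨w, rfl⟩ : ∃ w, x = w + 1 := ⟨x - 1, by simp⟩
      rw [add_sub_cancel_right]
      obtain ⟨w', rfl⟩ : ∃ w', w = w' + 1 := ⟨w - 1, by simp⟩
      have hw : w' + 1 ≠ Fin.last N := by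
        intro hh
        have h0 : w' + 1 + 1 = 0 := by rw [hh]; simp
        rw [h0] at hx
        simp at hx
      have hval : (w' + 1 + 1).val = (w' + 1).val + 1 :=
        Fin.val_add_one_of_lt (Fin.lt_last_iff_ne_last.mpr hw)
      have h2 := ih (w' + 1) (by omega) (by omega)
      rw [add_sub_cancel_right] at h2
      refine hstep w' ?_ h2
      intro hh
      have : (w' + 1).val = y.val := by rw [hh]
      omega
  intro x hx
  rw [mem_Dep, mem_Dep, hlow x.val x rfl hx]
  have hxy : x ≠ y := by
    intro h; rw [h] at hx; omega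
  simp [hxy]

/-- The event that the first `r` entries of the word are prescribed customers. -/
def Ev (m : ℕ) (y : Fin (N+1)) (i : Fin (N+1) → ℕ) (W : Fam m N) : Prop :=
  ∀ x : Fin (N+1), x.val < y.val → ∀ c : Fin (m+1), (x ∈ W (some c) ↔ i x < c.val)

theorem Ev_insert {m : ℕ} {y : Fin (N+1)} {i : Fin (N+1) → ℕ}
    (hm : m ≤ N)
    (hi : ∀ x : Fin (N+1), x.val < y.val → i x < m)
    (τ : Equiv.Perm (Fin (N+1))) (S : Finset (Fin (N+1))) (hS : m < S.card) (hy : y ∉ S) :
    Ev m y i (outF m (τ, S)) ↔ Ev m y i (outF m (τ, insert y S)) := by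
  have hcl : (lev m τ).card = m := card_lev m (by omega) τ
  have agree : (∀ x : Fin (N+1), x.val < y.val → x ∈ Dep (lev m τ) S) →
      (Ev m y i (outF m (τ, S)) ↔ Ev m y i (outF m (τ, insert y S))) := by
    intro hall
    have hk : ∀ c : Fin (m+1), ∀ x : Fin (N+1), x.val < y.val →
        (x ∈ Dep (lev c.val τ) S ↔ x ∈ Dep (lev c.val τ) (insert y S)) := by
      intro c
      exact key_agree (lev_mono (by have := c.isLt; omega) τ) (by rw [hcl]; exact hS) hy hall
    unfold Ev
    constructor
    · intro h x hx c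
      rw [← h x hx c]
      exact (hk c x hx).symm
    · intro h x hx c
      rw [← h x hx c]
      exact hk c x hx
  constructor
  · intro h
    refine (agree ?_).1 h
    intro x hx
    exact (h x hx ⟨m, by omega⟩).2 (hi x hx)
  · intro h
    refine (agree ?_).2 h
    intro x hx
    have h1 : x ∈ Dep (lev m τ) (insert y S) := (h x hx ⟨m, by omega⟩).2 (hi x hx)
    refine Dep_insert_sub (by rw [hcl]; exact hS) ?_ h1
    intro hxy; rw [hxy] at hx; omega

theorem Ev_prj {m s : ℕ} {y : Fin (N+1)} {i : Fin (N+1) → ℕ}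
    (hi : ∀ x : Fin (N+1), x.val < y.val → i x < m)
    (τ : Equiv.Perm (Fin (N+1))) :
    Ev m y i (prj m s τ) ↔ ∀ x : Fin (N+1), x.val < y.val → (τ x).val = i x := by
  unfold Ev prj
  constructor
  · intro h x hx
    have h1 := h x hx ⟨i x, by have := hi x hx; omega⟩
    have h2 := h x hx ⟨i x + 1, by have := hi x hx; omega⟩
    simp only [mem_lev] at h1 h2
    omega
  · intro h x hx c
    simp only [mem_lev]
    rw [h x hx]

open Classical in
/-- main independence statement -/
theorem indep (hN : ∀ j : Fin (N+1), j + 1 ≠ j)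
    (π : Equiv.Perm (Fin (N+1)) → ℝ)
    (hinv : ∀ G : Equiv.Perm (Fin (N+1)) → ℝ, ∑ τ, π τ * ∑ j, G (TB j τ)
      = ((N+1 : ℕ) : ℝ) * ∑ τ, π τ * G τ)
    (m : ℕ) (y : Fin (N+1)) (i : Fin (N+1) → ℕ)
    (hi : ∀ x : Fin (N+1), x.val < y.val → i x < m) :
    ∀ k s : ℕ, s + k = N + 1 → m < s →
    (∑ τ, π τ * (if ((∀ x : Fin (N+1), x.val < y.val → (τ x).val = i x) ∧ s ≤ (τ y).val)
        then 1 else 0))
      = ((k : ℝ) / ((N+1 : ℕ) : ℝ)) *
        ∑ τ, π τ * (if (∀ x : Fin (N+1), x.val < y.val → (τ x).val = i x) then 1 else 0) := by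
  intro k
  induction k with
  | zero =>
    intro s hs _
    have hz : ∀ τ : Equiv.Perm (Fin (N+1)), ¬ (s ≤ (τ y).val) := by
      intro τ h
      have := (τ y).isLt
      omega
    simp [hz]
  | succ k ih =>
    intro s hs hms
    have ih' := ih (s+1) (by omega) (by omega)
    set E : ℝ := ∑ τ, π τ * (if (∀ x : Fin (N+1), x.val < y.val → (τ x).val = i x) then 1 else 0)
      with hE
    set P : ℕ → ℝ := fun s => ∑ τ, π τ * (if ((∀ x : Fin (N+1), x.val < y.val →
      (τ x).val = i x) ∧ s ≤ (τ y).val) then 1 else 0) with hP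
    have hs1 : s ≤ N + 1 := by omega
    have hmN : m ≤ N := by omega
    -- identity for size s, y not a service
    have f1 := FM hN hms hs1 π hinv (fun W => if (Ev m y i W ∧ y ∉ W none) then 1 else 0)
    have f2 := FM hN (show m < s + 1 by omega) (show s + 1 ≤ N + 1 by omega) π hinv
      (fun W => if (Ev m y i W ∧ y ∈ W none) then 1 else 0)
    -- right hand sides
    have r1 : ∑ τ, (π τ * ((N+1).choose s : ℝ)) *
        (if (Ev m y i (prj m s τ) ∧ y ∉ prj m s τ none) then (1:ℝ) else 0)
        = ((N+1).choose s : ℝ) * P s := by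
      rw [hP]
      simp only
      rw [Finset.mul_sum]
      refine Finset.sum_congr rfl (fun τ _ => ?_)
      have : (Ev m y i (prj m s τ) ∧ y ∉ prj m s τ none) ↔
          ((∀ x : Fin (N+1), x.val < y.val → (τ x).val = i x) ∧ s ≤ (τ y).val) := by
        rw [Ev_prj hi]
        have : y ∉ (prj m s τ none) ↔ s ≤ (τ y).val := by
          show y ∉ lev s τ ↔ _
          rw [mem_lev]; omega
        rw [this]
      simp only [this]
      ring
    have r2 : ∑ τ, (π τ * ((N+1).choose (s+1) : ℝ)) *
        (if (Ev m y i (prj m (s+1) τ) ∧ y ∈ prj m (s+1) τ none) then (1:ℝ) else 0)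
        = ((N+1).choose (s+1) : ℝ) * (E - P (s+1)) := by
      rw [hP, hE]
      simp only
      rw [← Finset.sum_sub_distrib, Finset.mul_sum]
      refine Finset.sum_congr rfl (fun τ _ => ?_)
      have h1 : (Ev m y i (prj m (s+1) τ) ∧ y ∈ prj m (s+1) τ none) ↔
          ((∀ x : Fin (N+1), x.val < y.val → (τ x).val = i x) ∧ ¬ (s + 1 ≤ (τ y).val)) := by
        rw [Ev_prj hi]
        have : y ∈ (prj m (s+1) τ none) ↔ ¬ (s + 1 ≤ (τ y).val) := by
          show y ∈ lev (s+1) τ ↔ _
          rw [mem_lev]; omega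
        rw [this]
      simp only [h1]
      by_cases q1 : (∀ x : Fin (N+1), x.val < y.val → (τ x).val = i x)
      · by_cases q2 : s + 1 ≤ (τ y).val
        · rw [if_neg (fun h => h.2 q2), if_pos q1, if_pos ⟨q1, q2⟩]; ring
        · rw [if_pos ⟨q1, q2⟩, if_pos q1, if_neg (fun h => q2 h.2)]; ring
      · rw [if_neg (fun h => q1 h.1), if_neg q1, if_neg (fun h => q1 h.1)]; ring
    -- left hand sides agree
    have l12 : ∑ z : Equiv.Perm (Fin (N+1)) × Finset (Fin (N+1)),
        (π z.1 * (if z.2.card = s then 1 else 0)) *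
          (if (Ev m y i (outF m z) ∧ y ∉ (outF m z) none) then (1:ℝ) else 0)
        = ∑ z : Equiv.Perm (Fin (N+1)) × Finset (Fin (N+1)),
        (π z.1 * (if z.2.card = s + 1 then 1 else 0)) *
          (if (Ev m y i (outF m z) ∧ y ∈ (outF m z) none) then (1:ℝ) else 0) := by
      rw [Fintype.sum_prod_type, Fintype.sum_prod_type]
      refine Finset.sum_congr rfl (fun τ _ => ?_)
      have e1 : ∀ S : Finset (Fin (N+1)),
          (π τ * (if S.card = s then 1 else 0)) *
          (if (Ev m y i (outF m (τ, S)) ∧ y ∉ (outF m (τ, S)) none) then (1:ℝ) else 0)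
          = if (S.card = s ∧ y ∉ S ∧ Ev m y i (outF m (τ, S))) then π τ else 0 := by
        intro S
        have : (outF m (τ, S)) none = S := rfl
        rw [this]
        by_cases a1 : S.card = s <;> by_cases a2 : y ∉ S <;>
          by_cases a3 : Ev m y i (outF m (τ, S)) <;> simp [a1, a2, a3]
      have e2 : ∀ S : Finset (Fin (N+1)),
          (π τ * (if S.card = s + 1 then 1 else 0)) *
          (if (Ev m y i (outF m (τ, S)) ∧ y ∈ (outF m (τ, S)) none) then (1:ℝ) else 0)
          = if (S.card = s + 1 ∧ y ∈ S ∧ Ev m y i (outF m (τ, S))) then π τ else 0 := by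
        intro S
        have : (outF m (τ, S)) none = S := rfl
        rw [this]
        by_cases a1 : S.card = s + 1 <;> by_cases a2 : y ∈ S <;>
          by_cases a3 : Ev m y i (outF m (τ, S)) <;> simp [a1, a2, a3]
      show ∑ S : Finset (Fin (N+1)), (π τ * (if S.card = s then 1 else 0)) *
          (if (Ev m y i (outF m (τ, S)) ∧ y ∉ (outF m (τ, S)) none) then (1:ℝ) else 0)
          = ∑ S : Finset (Fin (N+1)), (π τ * (if S.card = s + 1 then 1 else 0)) *
          (if (Ev m y i (outF m (τ, S)) ∧ y ∈ (outF m (τ, S)) none) then (1:ℝ) else 0)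
      rw [Finset.sum_congr rfl (fun S _ => e1 S), Finset.sum_congr rfl (fun S _ => e2 S)]
      rw [← Finset.sum_filter, ← Finset.sum_filter]
      refine Finset.sum_nbij' (fun S => insert y S) (fun S => S.erase y) ?_ ?_ ?_ ?_ ?_
      · intro S hS
        simp only [Finset.mem_filter, Finset.mem_univ, true_and] at hS ⊢
        refine ⟨?_, Finset.mem_insert_self _ _, ?_⟩
        · rw [Finset.card_insert_of_notMem hS.2.1, hS.1]
        · exact (Ev_insert hmN hi τ S (by omega) hS.2.1).1 hS.2.2
      · intro S hS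
        simp only [Finset.mem_filter, Finset.mem_univ, true_and] at hS ⊢
        have hcard : (S.erase y).card = s := by
          rw [Finset.card_erase_of_mem hS.2.1]; omega
        refine ⟨hcard, Finset.notMem_erase _ _, ?_⟩
        refine (Ev_insert hmN hi τ (S.erase y) (by omega) (Finset.notMem_erase _ _)).2 ?_
        rw [Finset.insert_erase hS.2.1]
        exact hS.2.2
      · intro S hS
        simp only [Finset.mem_filter, Finset.mem_univ, true_and] at hS
        exact Finset.erase_insert hS.2.1
      · intro S hS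
        simp only [Finset.mem_filter, Finset.mem_univ, true_and] at hS
        exact Finset.insert_erase hS.2.1
      · intro S _
        rfl
    have main : ((N+1).choose s : ℝ) * P s = ((N+1).choose (s+1) : ℝ) * (E - P (s+1)) := by
      rw [← r1, ← r2, ← f1, ← f2]
      exact l12
    have hP1 : P (s+1) = ((k : ℝ) / ((N+1 : ℕ) : ℝ)) * E := ih'
    have hchoose : ((N+1).choose (s+1) : ℝ) * ((s+1 : ℕ) : ℝ)
        = ((N+1).choose s : ℝ) * ((k+1 : ℕ) : ℝ) := by
      have := Nat.choose_succ_right_eq (N+1) s
      have h2 : N + 1 - s = k + 1 := by omega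
      rw [h2] at this
      exact_mod_cast this
    have hpos : (0 : ℝ) < ((N+1).choose s : ℝ) := by
      exact_mod_cast Nat.choose_pos hs1
    have hn : (0 : ℝ) < ((N+1 : ℕ) : ℝ) := by positivity
    have hsk : ((N+1 : ℕ) : ℝ) - (k : ℝ) = ((s+1 : ℕ) : ℝ) := by
      have : ((s + (k + 1) : ℕ) : ℝ) = ((N+1 : ℕ) : ℝ) := by rw [hs]
      push_cast at this ⊢
      linarith
    have hfin : ((N+1).choose s : ℝ) * P s
        = ((N+1).choose s : ℝ) * ((((k+1 : ℕ) : ℝ) / ((N+1 : ℕ) : ℝ)) * E) := by
      rw [main, hP1]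
      have : E - (k : ℝ) / ((N+1 : ℕ) : ℝ) * E = (((s+1 : ℕ) : ℝ) / ((N+1 : ℕ) : ℝ)) * E := by
        rw [← hsk]
        field_simp
      rw [this, ← mul_assoc, ← mul_div_assoc, hchoose, ← mul_assoc, mul_div_assoc]
    exact mul_left_cancel₀ hpos.ne' hfin

end Pool.Agent.Work.MPf07634
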