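import Pool.Agent.Work.MP_f07634_pr.Uniq

set_option autoImplicit false

namespace Pool.Agent.Work.MPf07634

open Finset

variable {N : ℕ}

/-- The TASEP move at bond `(j, j+1)` on permutations. -/
def TB (j : Fin (N+1)) (τ : Equiv.Perm (Fin (N+1))) : Equiv.Perm (Fin (N+1)) :=
  if τ (j+1) < τ j then τ * Equiv.swap j (j+1) else τ

/-- level sets -/
def lev (c : ℕ) (τ : Equiv.Perm (Fin (N+1))) : Finset (Fin (N+1)) :=
  Finset.univ.filter (fun x => (τ x).val < c)

theorem mem_lev {c : ℕ} {τ : Equiv.Perm (Fin (N+1))} {x : Fin (N+1)} :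
    x ∈ lev c τ ↔ (τ x).val < c := by simp [lev]

theorem lev_TB {j : Fin (N+1)} (hj : j + 1 ≠ j) (c : ℕ) (τ : Equiv.Perm (Fin (N+1))) :
    lev c (TB j τ) = bm j (lev c τ) := by
  ext x
  unfold TB
  split_ifs with h
  · have h' : (τ (j+1)).val < (τ j).val := h
    by_cases h1 : x = j
    · subst h1
      rw [mem_bm_left, mem_lev, mem_lev, mem_lev]
      simp only [Equiv.Perm.mul_apply, Equiv.swap_apply_left]
      omega
    · by_cases h2 : x = j + 1
      · subst h2
        rw [mem_bm_right hj, mem_lev, mem_lev, mem_lev]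
        simp only [Equiv.Perm.mul_apply, Equiv.swap_apply_right]
        omega
      · rw [mem_bm_ne h1 h2, mem_lev, mem_lev]
        simp only [Equiv.Perm.mul_apply, Equiv.swap_apply_of_ne_of_ne h1 h2]
  · have h' : (τ j).val ≤ (τ (j+1)).val := by
      rw [not_lt] at h; exact h
    by_cases h1 : x = j
    · subst h1
      rw [mem_bm_left, mem_lev, mem_lev]
      omega
    · by_cases h2 : x = j + 1
      · subst h2
        rw [mem_bm_right hj, mem_lev, mem_lev]
        omega
      · rw [mem_bm_ne h1 h2]

theorem card_lev (c : ℕ) (hc : c ≤ N + 1) (τ : Equiv.Perm (Fin (N+1))) : (lev c τ).card = c := by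
  have h : lev c τ = (Finset.univ.filter (fun x : Fin (N+1) => x.val < c)).map
      (τ.symm : Equiv.Perm (Fin (N+1))).toEmbedding := by
    ext x
    rw [mem_lev, Finset.mem_map_equiv]
    simp
  rw [h, Finset.card_map, Fin.card_filter_val_lt]
  exact min_eq_right hc

theorem lev_mono {c d : ℕ} (h : c ≤ d) (τ : Equiv.Perm (Fin (N+1))) : lev c τ ⊆ lev d τ := by
  intro x hx
  rw [mem_lev] at *
  omega

/-- state space of families -/
abbrev Fam (m N : ℕ) : Type := Option (Fin (m+1)) → Finset (Fin (N+1))

/-- output of the priority queue -/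
noncomputable def outF (m : ℕ) (z : Equiv.Perm (Fin (N+1)) × Finset (Fin (N+1))) : Fam m N :=
  fun c => match c with
    | some c => Dep (lev c.val z.1) z.2
    | none => z.2

/-- projection of a permutation -/
def prj (m s : ℕ) (τ : Equiv.Perm (Fin (N+1))) : Fam m N :=
  fun c => match c with
    | some c => lev c.val τ
    | none => lev s τ

/-- content -/
def cont (m s : ℕ) : Option (Fin (m+1)) → ℕ := fun c => match c with
    | some c => c.val
    | none => s

theorem outF_bell (hN : ∀ j : Fin (N+1), j + 1 ≠ j) {m s : ℕ} (hms : m < s) (hs : s ≤ N + 1)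
    (j : Fin (N+1)) (τ : Equiv.Perm (Fin (N+1))) (S : Finset (Fin (N+1))) (hS : S.card = s) :
    outF m (TB (bell (j, S)).1 τ, (bell (j, S)).2) = BM j (outF m (τ, S)) := by
  funext c
  match c with
  | none =>
    simp only [outF, BM]
    exact bell_snd (j, S)
  | some c =>
    simp only [outF, BM]
    rw [lev_TB (hN _)]
    refine bell_Dep hN (j, S) ?_
    rw [card_lev _ (by have := c.isLt; omega)]
    simp only [hS]
    have := c.isLt
    omega

theorem prj_TB (hN : ∀ j : Fin (N+1), j + 1 ≠ j) {m s : ℕ}
    (j : Fin (N+1)) (τ : Equiv.Perm (Fin (N+1))) :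
    prj m s (TB j τ) = BM j (prj m s τ) := by
  funext c
  match c with
  | none => simp only [prj, BM]; rw [lev_TB (hN _)]
  | some c => simp only [prj, BM]; rw [lev_TB (hN _)]

/-- Ferrari-Martin theorem for one line. -/
theorem FM (hN : ∀ j : Fin (N+1), j + 1 ≠ j) {m s : ℕ} (hms : m < s) (hs : s ≤ N + 1)
    (π : Equiv.Perm (Fin (N+1)) → ℝ)
    (hinv : ∀ G : Equiv.Perm (Fin (N+1)) → ℝ, ∑ τ, π τ * ∑ j, G (TB j τ)
      = ((N+1 : ℕ) : ℝ) * ∑ τ, π τ * G τ) (G : Fam m N → ℝ) :
    ∑ z : Equiv.Perm (Fin (N+1)) × Finset (Fin (N+1)),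
        (π z.1 * (if z.2.card = s then 1 else 0)) * G (outF m z)
      = ∑ τ, (π τ * ((N+1).choose s : ℝ)) * G (prj m s τ) := by
  classical
  refine uniq_push (BM (ι := Option (Fin (m+1)))) {W | ∀ c, (W c).card = cont m s c}
    (fun c => srt (cont m s c)) ?_ _ _ _ _ ?_ ?_ ?_ ?_ ?_ G
  · intro U hne hU hcl
    exact sorted_reach (cont m s) U hne hU hcl
  · rintro ⟨τ, S⟩ hz c
    have hS : S.card = s := by
      by_contra h
      apply hz
      simp [h]
    match c with
    | none => simpa [outF, cont] using hS
    | some c =>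
      have hc := c.isLt
      simp only [outF, cont]
      rw [card_Dep, card_lev _ (by omega)]
      rw [card_lev _ (by omega), hS]
      omega
  · intro τ _ c
    match c with
    | none => simp only [prj, cont]; exact card_lev _ hs _
    | some c =>
      have hc := c.isLt
      simp only [prj, cont]; exact card_lev _ (by omega) _
  · intro H
    -- reorganise
    have key : ∀ K : Fin (N+1) → Equiv.Perm (Fin (N+1)) → Finset (Fin (N+1)) → ℝ,
        ∑ z : Equiv.Perm (Fin (N+1)) × Finset (Fin (N+1)), (∑ j, K j z.1 z.2)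
          = ∑ y : Fin (N+1) × Finset (Fin (N+1)), ∑ τ, K y.1 τ y.2 := by
      intro K
      rw [Fintype.sum_prod_type, Fintype.sum_prod_type_right]
      rw [Finset.sum_comm]
      refine Finset.sum_congr rfl (fun S _ => ?_)
      rw [Finset.sum_comm]
    have step1 : ∑ z : Equiv.Perm (Fin (N+1)) × Finset (Fin (N+1)),
        (π z.1 * (if z.2.card = s then 1 else 0)) * ∑ j, H (BM j (outF m z))
        = ∑ y : Fin (N+1) × Finset (Fin (N+1)), ∑ τ,
          (π τ * (if y.2.card = s then 1 else 0)) * H (BM y.1 (outF m (τ, y.2))) := by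
      rw [← key (fun j τ S => (π τ * (if S.card = s then 1 else 0)) * H (BM j (outF m (τ, S))))]
      refine Finset.sum_congr rfl (fun z _ => ?_)
      rw [Finset.mul_sum]
    have step2 : ∑ y : Fin (N+1) × Finset (Fin (N+1)), ∑ τ,
          (π τ * (if y.2.card = s then 1 else 0)) * H (BM y.1 (outF m (τ, y.2)))
        = ∑ y : Fin (N+1) × Finset (Fin (N+1)), ∑ τ,
          (π τ * (if (bell y).2.card = s then 1 else 0)) *
            H (outF m (TB (bell y).1 τ, (bell y).2)) := by
      refine Finset.sum_congr rfl (fun y _ => ?_)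
      refine Finset.sum_congr rfl (fun τ _ => ?_)
      rw [bell_card]
      by_cases hS : y.2.card = s
      · rw [← outF_bell hN hms hs y.1 τ y.2 hS]
      · simp [hS]
    have step3 : ∑ y : Fin (N+1) × Finset (Fin (N+1)), ∑ τ,
          (π τ * (if (bell y).2.card = s then 1 else 0)) *
            H (outF m (TB (bell y).1 τ, (bell y).2))
        = ∑ y : Fin (N+1) × Finset (Fin (N+1)), ∑ τ,
          (π τ * (if y.2.card = s then 1 else 0)) * H (outF m (TB y.1 τ, y.2)) := by
      exact Equiv.sum_comp bellEquiv (fun y : Fin (N+1) × Finset (Fin (N+1)) => ∑ τ,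
          (π τ * (if y.2.card = s then 1 else 0)) * H (outF m (TB y.1 τ, y.2)))
    rw [step1, step2, step3, Fintype.sum_prod_type_right]
    have step4 : ∀ S : Finset (Fin (N+1)), ∑ j : Fin (N+1), ∑ τ,
          (π τ * (if S.card = s then 1 else 0)) * H (outF m (TB j τ, S))
        = ((N+1 : ℕ) : ℝ) * ∑ τ, (π τ * (if S.card = s then 1 else 0)) * H (outF m (τ, S)) := by
      intro S
      have h := hinv (fun τ => (if S.card = s then 1 else 0) * H (outF m (τ, S)))
      rw [Finset.sum_comm]
      calc ∑ τ, ∑ j, (π τ * (if S.card = s then 1 else 0)) * H (outF m (TB j τ, S))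
          = ∑ τ, π τ * ∑ j, ((if S.card = s then 1 else 0) * H (outF m (TB j τ, S))) := by
            refine Finset.sum_congr rfl (fun τ _ => ?_)
            rw [Finset.mul_sum]
            refine Finset.sum_congr rfl (fun j _ => ?_)
            ring
        _ = _ := by
            rw [h]
            congr 1
            refine Finset.sum_congr rfl (fun τ _ => ?_)
            ring
    rw [Finset.sum_congr rfl (fun S _ => step4 S), ← Finset.mul_sum, Fintype.card_fin]
    congr 1
    rw [Fintype.sum_prod_type_right]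
  · intro H
    have h := hinv (fun τ => ((N+1).choose s : ℝ) * H (prj m s τ))
    rw [Fintype.card_fin]
    calc ∑ τ, (π τ * ((N+1).choose s : ℝ)) * ∑ j, H (BM j (prj m s τ))
        = ∑ τ, π τ * ∑ j, (((N+1).choose s : ℝ) * H (prj m s (TB j τ))) := by
          refine Finset.sum_congr rfl (fun τ _ => ?_)
          rw [← Finset.mul_sum, mul_assoc]
          congr 2
          refine Finset.sum_congr rfl (fun j _ => ?_)
          rw [prj_TB hN]
      _ = _ := by
          rw [h]
          congr 1
          refine Finset.sum_congr rfl (fun τ _ => ?_)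
          ring
  · rw [Fintype.sum_prod_type]
    refine Finset.sum_congr rfl (fun τ _ => ?_)
    show ∑ S : Finset (Fin (N+1)), π τ * (if S.card = s then 1 else 0) = _
    rw [← Finset.mul_sum]
    congr 1
    rw [Finset.sum_boole]
    have : (Finset.univ.filter (fun S : Finset (Fin (N+1)) => S.card = s))
        = Finset.powersetCard s Finset.univ := by
      ext S; simp [Finset.mem_powersetCard]
    rw [this, Finset.card_powersetCard, Finset.card_univ, Fintype.card_fin]

end Pool.Agent.Work.MPf07634
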