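import Pool.Agent.Work.MP_f07634_pr.Queue

set_option autoImplicit false

namespace Pool.Agent.Work.MPf07634

open Finset

variable {N : ℕ}

theorem ext_ind {A B : Finset (Fin (N+1))} (h : ∀ x, ind A x = ind B x) : A = B := by
  ext x
  rw [← ind_eq_one_iff, ← ind_eq_one_iff, h]

theorem ind_bm_left (j : Fin (N+1)) (A : Finset (Fin (N+1))) :
    ind (bm j A) j = max (ind A j) (ind A (j+1)) := by
  unfold ind
  simp only [mem_bm_left]
  split_ifs <;> first | rfl | tauto

theorem ind_bm_right {j : Fin (N+1)} (hj : j + 1 ≠ j) (A : Finset (Fin (N+1))) :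
    ind (bm j A) (j+1) = min (ind A j) (ind A (j+1)) := by
  unfold ind
  simp only [mem_bm_right hj]
  split_ifs <;> first | rfl | tauto

theorem ind_bm_ne {j x : Fin (N+1)} (h1 : x ≠ j) (h2 : x ≠ j + 1) (A : Finset (Fin (N+1))) :
    ind (bm j A) x = ind A x := by
  unfold ind
  simp only [mem_bm_ne h1 h2]

theorem ind_sw_left (j : Fin (N+1)) (A : Finset (Fin (N+1))) :
    ind (sw j A) j = ind A (j+1) := by
  unfold ind
  simp only [mem_sw_left]

theorem ind_sw_right (j : Fin (N+1)) (A : Finset (Fin (N+1))) :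
    ind (sw j A) (j+1) = ind A j := by
  unfold ind
  simp only [mem_sw_right]

theorem ind_sw_ne {j x : Fin (N+1)} (h1 : x ≠ j) (h2 : x ≠ j + 1) (A : Finset (Fin (N+1))) :
    ind (sw j A) x = ind A x := by
  unfold ind
  simp only [mem_sw_ne h1 h2]

theorem ind_Dep_succ (A S : Finset (Fin (N+1))) (x : Fin (N+1)) :
    ind (Dep A S) (x+1) = min (ind S (x+1)) (queue A S x + ind A (x+1)) := by
  have h3 : ind (Dep A S) (x+1) = if (x + 1 ∈ S ∧ 1 ≤ queue A S x + ind A (x+1)) then 1 else 0 := by
    unfold ind; simp only [mem_Dep_succ]; rfl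
  rw [h3]
  by_cases hS : x + 1 ∈ S
  · have h2 : ind S (x+1) = 1 := (ind_eq_one_iff _ _).2 hS
    split_ifs with hc
    · omega
    · simp only [hS, true_and] at hc; omega
  · have h2 : ind S (x+1) = 0 := (ind_eq_zero_iff _ _).2 hS
    rw [if_neg (by simp [hS])]
    omega

/-- First intertwining relation: the service set contains `j+1`. -/
theorem inter1 {j : Fin (N+1)} (hj : j + 1 ≠ j) {A S : Finset (Fin (N+1))}
    (hlt : A.card < S.card) (hS : j + 1 ∈ S) :
    Dep (bm j A) (sw j S) = bm j (Dep A S) := by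
  obtain ⟨i, rfl⟩ : ∃ i, j = i + 1 := ⟨j - 1, by simp⟩
  have hj' : i + 1 ≠ i := by
    intro h
    apply hj
    rw [h]; exact h
  set j := i + 1 with hjdef
  set q := queue A S with hq
  have hqs := queue_spec hlt.le
  rw [← hq] at hqs
  set q' : Fin (N+1) → ℕ := Function.update q j (q i + ind (bm j A) j - ind (sw j S) j) with hq'
  have hq'j : q' j = q i + ind (bm j A) j - ind (sw j S) j := by
    rw [hq', Function.update_self]
  have hq'ne : ∀ x, x ≠ j → q' x = q x := by
    intro x hx
    rw [hq', Function.update_of_ne hx]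
  have e1 := ind_bm_left j A
  have e2 := ind_bm_right hj A
  have e3 := ind_sw_left j S
  have e4 := ind_sw_right j S
  have b1 := ind_le_one A j
  have b2 := ind_le_one A (j+1)
  have b3 := ind_le_one S j
  have b4 : ind S (j+1) = 1 := (ind_eq_one_iff _ _).2 hS
  have r1 := hqs i
  rw [← hjdef] at r1
  have r2 := hqs j
  have hq'i : q' i = q i := hq'ne i (fun h => hj' h.symm)
  have hq'j1 : q' (j+1) = q (j+1) := hq'ne _ hj
  have hsol : IsQ (ind (bm j A)) (ind (sw j S)) q' := by
    intro x
    by_cases hx1 : x = j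
    · subst hx1
      rw [hq'j1, hq'j]
      omega
    · by_cases hx2 : x = i
      · subst hx2
        rw [← hjdef, hq'j, hq'i]
      · have hx3 : x + 1 ≠ j := by
          intro h
          apply hx2
          rw [hjdef] at h
          exact add_right_cancel h
        have hx4 : x + 1 ≠ j + 1 := by
          intro h
          exact hx1 (add_right_cancel h)
        rw [hq'ne _ hx3, hq'ne _ hx1, ind_bm_ne hx3 hx4, ind_sw_ne hx3 hx4]
        exact hqs x
  have hlt' : (bm j A).card < (sw j S).card := by rw [card_bm, card_sw]; exact hlt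
  have hqe : queue (bm j A) (sw j S) = q' := queue_eq hlt' hsol
  apply ext_ind
  intro y
  obtain ⟨x, rfl⟩ : ∃ x, y = x + 1 := ⟨y - 1, by simp⟩
  have d0 := ind_Dep_succ A S i
  rw [← hjdef, ← hq] at d0
  have d1 := ind_Dep_succ A S j
  rw [← hq] at d1
  by_cases hx1 : x = j
  · subst hx1
    rw [ind_Dep_succ, hqe, ind_bm_right hj (Dep A S)]
    rw [hq'j]
    omega
  · by_cases hx2 : x = i
    · subst hx2
      rw [ind_Dep_succ, ← hjdef, hqe, ind_bm_left j (Dep A S), hq'i]
      omega
    · have hx3 : x + 1 ≠ j := by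
        intro h
        apply hx2
        rw [hjdef] at h
        exact add_right_cancel h
      have hx4 : x + 1 ≠ j + 1 := by
        intro h
        exact hx1 (add_right_cancel h)
      rw [ind_Dep_succ, hqe, ind_bm_ne hx3 hx4, ind_bm_ne hx3 hx4, ind_sw_ne hx3 hx4, hq'ne _ hx1,
        ind_Dep_succ]

/-- Second intertwining relation: no service at `j`. -/
theorem inter2 {j : Fin (N+1)} (hj : j + 1 ≠ j) {A S : Finset (Fin (N+1))}
    (hlt : A.card < S.card) (hS : j ∉ S) :
    Dep (bm j A) S = Dep A S := by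
  obtain ⟨i, rfl⟩ : ∃ i, j = i + 1 := ⟨j - 1, by simp⟩
  have hj' : i + 1 ≠ i := by
    intro h
    apply hj
    rw [h]; exact h
  set j := i + 1 with hjdef
  set q := queue A S with hq
  have hqs := queue_spec hlt.le
  rw [← hq] at hqs
  set q' : Fin (N+1) → ℕ := Function.update q j (q i + ind (bm j A) j - ind S j) with hq'
  have hq'j : q' j = q i + ind (bm j A) j - ind S j := by
    rw [hq', Function.update_self]
  have hq'ne : ∀ x, x ≠ j → q' x = q x := by
    intro x hx
    rw [hq', Function.update_of_ne hx]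
  have e1 := ind_bm_left j A
  have e2 := ind_bm_right hj A
  have b1 := ind_le_one A j
  have b2 := ind_le_one A (j+1)
  have b3 := ind_le_one S (j+1)
  have b4 : ind S j = 0 := (ind_eq_zero_iff _ _).2 hS
  have r1 := hqs i
  rw [← hjdef] at r1
  have r2 := hqs j
  have hq'i : q' i = q i := hq'ne i (fun h => hj' h.symm)
  have hq'j1 : q' (j+1) = q (j+1) := hq'ne _ hj
  have hsol : IsQ (ind (bm j A)) (ind S) q' := by
    intro x
    by_cases hx1 : x = j
    · subst hx1
      rw [hq'j1, hq'j]
      omega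
    · by_cases hx2 : x = i
      · subst hx2
        rw [← hjdef, hq'j, hq'i]
      · have hx3 : x + 1 ≠ j := by
          intro h
          apply hx2
          rw [hjdef] at h
          exact add_right_cancel h
        have hx4 : x + 1 ≠ j + 1 := by
          intro h
          exact hx1 (add_right_cancel h)
        rw [hq'ne _ hx3, hq'ne _ hx1, ind_bm_ne hx3 hx4]
        exact hqs x
  have hlt' : (bm j A).card < S.card := by rw [card_bm]; exact hlt
  have hqe : queue (bm j A) S = q' := queue_eq hlt' hsol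
  apply ext_ind
  intro y
  obtain ⟨x, rfl⟩ : ∃ x, y = x + 1 := ⟨y - 1, by simp⟩
  rw [ind_Dep_succ, ind_Dep_succ, hqe, ← hq]
  by_cases hx1 : x = j
  · subst hx1
    rw [hq'j]
    omega
  · by_cases hx2 : x = i
    · subst hx2
      rw [← hjdef, hq'i]
      omega
    · have hx3 : x + 1 ≠ j := by
        intro h
        apply hx2
        rw [hjdef] at h
        exact add_right_cancel h
      have hx4 : x + 1 ≠ j + 1 := by
        intro h
        exact hx1 (add_right_cancel h)
      rw [ind_bm_ne hx3 hx4, hq'ne _ hx1]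

/-- The bell map. -/
def bell (p : Fin (N+1) × Finset (Fin (N+1))) : Fin (N+1) × Finset (Fin (N+1)) :=
  if p.1 + 1 ∈ p.2 then (p.1, sw p.1 p.2) else (p.1 + 1, p.2)

def bellInv (p : Fin (N+1) × Finset (Fin (N+1))) : Fin (N+1) × Finset (Fin (N+1)) :=
  if p.1 ∈ p.2 then (p.1, sw p.1 p.2) else (p.1 - 1, p.2)

theorem bell_left_inv (p : Fin (N+1) × Finset (Fin (N+1))) : bellInv (bell p) = p := by
  obtain ⟨j, S⟩ := p
  unfold bell bellInv
  by_cases h : j + 1 ∈ S
  · simp only [h, if_true]
    rw [if_pos (mem_sw_left.2 h), sw_sw]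
  · simp only [h, if_false]
    simp

theorem bell_right_inv (p : Fin (N+1) × Finset (Fin (N+1))) : bell (bellInv p) = p := by
  obtain ⟨j, S⟩ := p
  unfold bell bellInv
  by_cases h : j ∈ S
  · simp only [h, if_true]
    rw [if_pos (mem_sw_right.2 h), sw_sw]
  · simp only [h, if_false]
    simp [h]

/-- The bell map as an equivalence. -/
def bellEquiv : (Fin (N+1) × Finset (Fin (N+1))) ≃ (Fin (N+1) × Finset (Fin (N+1))) where
  toFun := bell
  invFun := bellInv
  left_inv := bell_left_inv
  right_inv := bell_right_inv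

theorem bell_card (p : Fin (N+1) × Finset (Fin (N+1))) : (bell p).2.card = p.2.card := by
  unfold bell
  split_ifs
  · simp [card_sw]
  · rfl

theorem bell_snd (p : Fin (N+1) × Finset (Fin (N+1))) : (bell p).2 = bm p.1 p.2 := by
  unfold bell
  split_ifs with h
  · simp [bm_eq_sw h]
  · simp [bm_eq_self h]

theorem bell_Dep (hN : ∀ j : Fin (N+1), j + 1 ≠ j) (p : Fin (N+1) × Finset (Fin (N+1)))
    {A : Finset (Fin (N+1))} (hlt : A.card < p.2.card) :
    Dep (bm (bell p).1 A) (bell p).2 = bm p.1 (Dep A p.2) := by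
  obtain ⟨j, S⟩ := p
  unfold bell
  by_cases h : j + 1 ∈ S
  · simp only [h, if_true]
    exact inter1 (hN j) hlt h
  · simp only [h, if_false]
    rw [inter2 (hN _) hlt h, bm_eq_self]
    intro h'
    exact h (mem_Dep.1 h').1

end Pool.Agent.Work.MPf07634
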