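import Mathlib

set_option autoImplicit false

namespace Pool.Agent.Work.MPf07634

open Finset
open scoped Fin.CommRing Fin.NatCast

variable {N : ℕ}

/-- Induction around the ring. -/
theorem ring_ind (P : Fin (N+1) → Prop) (x0 : Fin (N+1)) (h0 : P x0)
    (hs : ∀ x, P x → P (x + 1)) : ∀ x, P x := by
  have h : ∀ k : ℕ, P (x0 + (k : Fin (N+1))) := by
    intro k
    induction k with
    | zero => simpa using h0
    | succ k ih =>
      have := hs _ ih
      have e : x0 + ((k + 1 : ℕ) : Fin (N+1)) = x0 + (k : Fin (N+1)) + 1 := by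
        push_cast; ring
      rw [e]; exact this
  intro x
  have := h (x - x0).val
  rw [Fin.cast_val_eq_self] at this
  simpa using this

theorem ring_ind_back (P : Fin (N+1) → Prop) (x0 : Fin (N+1)) (h0 : P x0)
    (hs : ∀ x, P (x + 1) → P x) : ∀ x, P x := by
  have h : ∀ k : ℕ, P (x0 - (k : Fin (N+1))) := by
    intro k
    induction k with
    | zero => simpa using h0
    | succ k ih =>
      apply hs
      have e : x0 - ((k + 1 : ℕ) : Fin (N+1)) + 1 = x0 - (k : Fin (N+1)) := by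
        push_cast; ring
      rw [e]; exact ih
  intro x
  have := h (x0 - x).val
  rw [Fin.cast_val_eq_self] at this
  simpa using this

/-- Indicator. -/
def ind (A : Finset (Fin (N+1))) (x : Fin (N+1)) : ℕ := if x ∈ A then 1 else 0

theorem ind_le_one (A : Finset (Fin (N+1))) (x : Fin (N+1)) : ind A x ≤ 1 := by
  unfold ind; split_ifs <;> simp

theorem ind_pos_iff (A : Finset (Fin (N+1))) (x : Fin (N+1)) : 1 ≤ ind A x ↔ x ∈ A := by
  unfold ind; split_ifs with h <;> simp [h]

theorem ind_eq_one_iff (A : Finset (Fin (N+1))) (x : Fin (N+1)) : ind A x = 1 ↔ x ∈ A := by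
  unfold ind; split_ifs with h <;> simp [h]

theorem ind_eq_zero_iff (A : Finset (Fin (N+1))) (x : Fin (N+1)) : ind A x = 0 ↔ x ∉ A := by
  unfold ind; split_ifs with h <;> simp [h]

theorem sum_ind (A : Finset (Fin (N+1))) : ∑ x, ind A x = A.card := by
  unfold ind; simp

theorem ind_mono {A B : Finset (Fin (N+1))} (h : A ⊆ B) (x : Fin (N+1)) : ind A x ≤ ind B x := by
  unfold ind; split_ifs with h1 h2 <;> simp
  exact h2 (h h1)

/-- A stationary queue-length profile for arrivals `a` and services `s`. -/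
def IsQ (a s q : Fin (N+1) → ℕ) : Prop := ∀ x, q (x+1) = q x + a (x+1) - s (x+1)

theorem sum_shift (f : Fin (N+1) → ℕ) : ∑ x, f (x + 1) = ∑ x, f x :=
  Equiv.sum_comp (Equiv.addRight (1 : Fin (N+1))) f

/-- comparison -/
theorem IsQ.cmp {a s q a' s' q' : Fin (N+1) → ℕ} (h : IsQ a s q) (h' : IsQ a' s' q')
    (ha : ∀ x, a x ≤ a' x) (hs : ∀ x, s' x ≤ s x) (hlt : ∑ x, a x < ∑ x, s x) :
    ∀ x, q x ≤ q' x := by
  by_contra hcon
  push Not at hcon
  obtain ⟨x0, hx0⟩ := hcon
  have hall : ∀ x, q' x < q x := by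
    refine ring_ind_back _ x0 hx0 ?_
    intro x hx
    have h1 := h x
    have h2 := h' x
    have h3 := ha (x+1)
    have h4 := hs (x+1)
    omega
  have heq : ∀ x, q (x+1) + s (x+1) = q x + a (x+1) := by
    intro x
    have h1 := h x
    have h5 := hall (x+1)
    omega
  have hsum : ∑ x, (q (x+1) + s (x+1)) = ∑ x, (q x + a (x+1)) :=
    Finset.sum_congr rfl (fun x _ => heq x)
  rw [Finset.sum_add_distrib, Finset.sum_add_distrib, sum_shift q, sum_shift s, sum_shift a] at hsum
  omega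

theorem IsQ.unique {a s q q' : Fin (N+1) → ℕ} (h : IsQ a s q) (h' : IsQ a s q')
    (hlt : ∑ x, a x < ∑ x, s x) : q = q' := by
  funext x
  exact le_antisymm (h.cmp h' (fun _ => le_rfl) (fun _ => le_rfl) hlt x)
    (h'.cmp h (fun _ => le_rfl) (fun _ => le_rfl) hlt x)

/-- iterate of the queue recursion started with `v` customers just after position `0`. -/
def run (a s : Fin (N+1) → ℕ) (v : ℕ) : ℕ → ℕ
  | 0 => v
  | k+1 => run a s v k + a ((k+1 : ℕ) : Fin (N+1)) - s ((k+1 : ℕ) : Fin (N+1))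

theorem run_mono (a s : Fin (N+1) → ℕ) {v w : ℕ} (h : v ≤ w) (k : ℕ) :
    run a s v k ≤ run a s w k := by
  induction k with
  | zero => simpa [run] using h
  | succ k ih => simp only [run]; omega

theorem sum_range_cast (f : Fin (N+1) → ℕ) :
    ∑ k ∈ Finset.range (N+1), f (((k+1 : ℕ)) : Fin (N+1)) = ∑ x, f x := by
  rw [← sum_shift f, ← Fin.sum_univ_eq_sum_range (fun k => f (((k+1 : ℕ)) : Fin (N+1)))]
  refine Finset.sum_congr rfl ?_
  intro x _
  congr 1
  push_cast
  rfl

theorem run_big (a s : Fin (N+1) → ℕ) (v : ℕ) (k : ℕ)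
    (hv : ∑ i ∈ Finset.range k, s (((i+1 : ℕ)) : Fin (N+1)) ≤ v) :
    run a s v k + ∑ i ∈ Finset.range k, s (((i+1 : ℕ)) : Fin (N+1))
      = v + ∑ i ∈ Finset.range k, a (((i+1 : ℕ)) : Fin (N+1)) := by
  induction k with
  | zero => simp [run]
  | succ k ih =>
    rw [Finset.sum_range_succ] at hv
    have h1 := ih (by omega)
    rw [Finset.sum_range_succ, Finset.sum_range_succ]
    simp only [run]
    omega

theorem exists_fix (a s : Fin (N+1) → ℕ) (hle : ∑ x, a x ≤ ∑ x, s x) :
    ∃ v, run a s v (N+1) = v := by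
  have hex : ∃ v, run a s v (N+1) ≤ v := by
    refine ⟨∑ x, s x, ?_⟩
    have h := run_big a s (∑ x, s x) (N+1) (by rw [sum_range_cast])
    rw [sum_range_cast, sum_range_cast] at h
    omega
  classical
  refine ⟨Nat.find hex, ?_⟩
  have h1 := Nat.find_spec hex
  refine le_antisymm h1 ?_
  by_contra hcon
  push Not at hcon
  exact Nat.find_min hex hcon (run_mono a s h1 (N+1))

theorem IsQ.exists (a s : Fin (N+1) → ℕ) (hle : ∑ x, a x ≤ ∑ x, s x) : ∃ q, IsQ a s q := by
  obtain ⟨v, hv⟩ := exists_fix a s hle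
  refine ⟨fun x => run a s v x.val, ?_⟩
  intro x
  by_cases hx : x = Fin.last N
  · subst hx
    have e : (Fin.last N + 1 : Fin (N+1)) = 0 := by simp
    rw [e]
    have h1 : run a s v (N+1) = run a s v N + a ((N+1 : ℕ) : Fin (N+1)) - s ((N+1 : ℕ) : Fin (N+1)) := rfl
    have e2 : ((N+1 : ℕ) : Fin (N+1)) = 0 := by simp
    rw [e2, hv] at h1
    simpa [run] using h1
  · have hval : (x + 1).val = x.val + 1 := Fin.val_add_one_of_lt (Fin.lt_last_iff_ne_last.mpr hx)
    have e3 : (((x.val + 1 : ℕ)) : Fin (N+1)) = x + 1 := by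
      push_cast; rfl
    show run a s v (x+1).val = run a s v x.val + a (x+1) - s (x+1)
    rw [hval]
    simp only [run]
    rw [e3]

open Classical in
/-- The stationary queue length. -/
noncomputable def queue (A S : Finset (Fin (N+1))) : Fin (N+1) → ℕ :=
  if h : ∃ q, IsQ (ind A) (ind S) q then h.choose else fun _ => 0

theorem queue_spec {A S : Finset (Fin (N+1))} (h : A.card ≤ S.card) :
    IsQ (ind A) (ind S) (queue A S) := by
  have hex : ∃ q, IsQ (ind A) (ind S) q := IsQ.exists _ _ (by rw [sum_ind, sum_ind]; exact h)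
  unfold queue
  rw [dif_pos hex]
  exact hex.choose_spec

theorem queue_eq {A S : Finset (Fin (N+1))} (h : A.card < S.card) {q : Fin (N+1) → ℕ}
    (hq : IsQ (ind A) (ind S) q) : queue A S = q :=
  (queue_spec h.le).unique hq (by rw [sum_ind, sum_ind]; exact h)

/-- The departure set. -/
noncomputable def Dep (A S : Finset (Fin (N+1))) : Finset (Fin (N+1)) :=
  S.filter (fun x => 1 ≤ queue A S (x - 1) + ind A x)

theorem mem_Dep {A S : Finset (Fin (N+1))} {x : Fin (N+1)} :
    x ∈ Dep A S ↔ x ∈ S ∧ 1 ≤ queue A S (x - 1) + ind A x := by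
  simp [Dep]

theorem mem_Dep_succ {A S : Finset (Fin (N+1))} {x : Fin (N+1)} :
    x + 1 ∈ Dep A S ↔ x + 1 ∈ S ∧ 1 ≤ queue A S x + ind A (x+1) := by
  rw [mem_Dep]; simp

theorem Dep_balance {A S : Finset (Fin (N+1))} (h : A.card ≤ S.card) (x : Fin (N+1)) :
    queue A S (x+1) + ind (Dep A S) (x+1) = queue A S x + ind A (x+1) := by
  have h1 := queue_spec h x
  have h3 : ind (Dep A S) (x+1) = if (x + 1 ∈ S ∧ 1 ≤ queue A S x + ind A (x+1)) then 1 else 0 := by
    unfold ind; simp only [mem_Dep_succ]; rfl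
  rw [h3]
  by_cases hS : x + 1 ∈ S
  · have h2 : ind S (x+1) = 1 := (ind_eq_one_iff _ _).2 hS
    split_ifs with hc
    · omega
    · simp only [hS, true_and] at hc; omega
  · have h2 : ind S (x+1) = 0 := (ind_eq_zero_iff _ _).2 hS
    rw [if_neg (by simp [hS])]
    omega

theorem card_Dep {A S : Finset (Fin (N+1))} (h : A.card ≤ S.card) : (Dep A S).card = A.card := by
  have hsum : ∑ x, (queue A S (x+1) + ind (Dep A S) (x+1)) = ∑ x, (queue A S x + ind A (x+1)) :=
    Finset.sum_congr rfl (fun x _ => Dep_balance h x)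
  rw [Finset.sum_add_distrib, Finset.sum_add_distrib, sum_shift (queue A S),
    sum_shift (ind A), sum_shift (ind (Dep A S)), sum_ind, sum_ind] at hsum
  omega

/-- The bond move at bond `(j, j+1)`: a particle at `j+1` moves to `j` if `j` is empty. -/
def bm (j : Fin (N+1)) (A : Finset (Fin (N+1))) : Finset (Fin (N+1)) :=
  if j ∉ A ∧ j + 1 ∈ A then insert j (A.erase (j+1)) else A

/-- The swap at bond `(j, j+1)`. -/
def sw (j : Fin (N+1)) (A : Finset (Fin (N+1))) : Finset (Fin (N+1)) :=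
  A.map (Equiv.swap j (j+1)).toEmbedding

theorem mem_sw {j x : Fin (N+1)} {A : Finset (Fin (N+1))} :
    x ∈ sw j A ↔ Equiv.swap j (j+1) x ∈ A := by
  unfold sw
  rw [Finset.mem_map_equiv]
  simp

theorem sw_sw (j : Fin (N+1)) (A : Finset (Fin (N+1))) : sw j (sw j A) = A := by
  ext x; simp [mem_sw]

theorem card_sw (j : Fin (N+1)) (A : Finset (Fin (N+1))) : (sw j A).card = A.card := by
  simp [sw]

theorem mem_bm_ne {j x : Fin (N+1)} {A : Finset (Fin (N+1))} (h1 : x ≠ j) (h2 : x ≠ j + 1) :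
    x ∈ bm j A ↔ x ∈ A := by
  unfold bm; split_ifs <;> simp [h1, h2]

theorem mem_bm_left {j : Fin (N+1)} {A : Finset (Fin (N+1))} :
    j ∈ bm j A ↔ (j ∈ A ∨ j + 1 ∈ A) := by
  unfold bm; split_ifs with h
  · simp [h.2]
  · constructor
    · intro h1; exact Or.inl h1
    · intro h1
      by_contra h2
      exact h ⟨h2, h1.resolve_left h2⟩

theorem mem_bm_right {j : Fin (N+1)} {A : Finset (Fin (N+1))} (hj : j + 1 ≠ j) :
    j + 1 ∈ bm j A ↔ (j ∈ A ∧ j + 1 ∈ A) := by
  unfold bm; split_ifs with h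
  · simp [hj, h.1]
  · constructor
    · intro h1
      refine ⟨?_, h1⟩
      by_contra h2
      exact h ⟨h2, h1⟩
    · intro h1; exact h1.2

theorem mem_sw_ne {j x : Fin (N+1)} {A : Finset (Fin (N+1))} (h1 : x ≠ j) (h2 : x ≠ j + 1) :
    x ∈ sw j A ↔ x ∈ A := by
  rw [mem_sw, Equiv.swap_apply_of_ne_of_ne h1 h2]

theorem mem_sw_left {j : Fin (N+1)} {A : Finset (Fin (N+1))} : j ∈ sw j A ↔ j + 1 ∈ A := by
  rw [mem_sw, Equiv.swap_apply_left]

theorem mem_sw_right {j : Fin (N+1)} {A : Finset (Fin (N+1))} : j + 1 ∈ sw j A ↔ j ∈ A := by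
  rw [mem_sw, Equiv.swap_apply_right]

theorem card_bm (j : Fin (N+1)) (A : Finset (Fin (N+1))) : (bm j A).card = A.card := by
  unfold bm; split_ifs with h
  · rw [Finset.card_insert_of_notMem (by simp [h.1]), Finset.card_erase_of_mem h.2]
    have : 0 < A.card := Finset.card_pos.mpr ⟨_, h.2⟩
    omega
  · rfl

theorem bm_eq_self {j : Fin (N+1)} {A : Finset (Fin (N+1))} (h : j + 1 ∉ A) : bm j A = A := by
  unfold bm; rw [if_neg]; tauto

theorem bm_eq_sw {j : Fin (N+1)} {A : Finset (Fin (N+1))} (h : j + 1 ∈ A) : bm j A = sw j A := by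
  ext x
  by_cases hj : j + 1 = j
  · rw [hj] at h
    have : bm j A = A := by unfold bm; rw [if_neg]; tauto
    rw [this, mem_sw, hj]; simp
  by_cases h1 : x = j
  · subst h1; rw [mem_bm_left, mem_sw_left]; tauto
  by_cases h2 : x = j + 1
  · subst h2; rw [mem_bm_right hj, mem_sw_right]; tauto
  rw [mem_bm_ne h1 h2, mem_sw_ne h1 h2]

end Pool.Agent.Work.MPf07634
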