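import Pool.Agent.Work.MP_f07634_pr.Inter

set_option autoImplicit false

namespace Pool.Agent.Work.MPf07634

open Finset

/-- Abstract uniqueness of invariant measures for a random walk driven by finitely many maps,
when a state lies in every nonempty closed set. -/
theorem uniq_signed {X J : Type*} [Fintype X] [Fintype J]
    (B : J → X → X) (C : Set X) (x0 : X)
    (hx0 : ∀ U : Set X, U.Nonempty → U ⊆ C → (∀ x ∈ U, ∀ j, B j x ∈ U) → x0 ∈ U)
    (μ : X → ℝ) (hsupp : ∀ x, μ x ≠ 0 → x ∈ C)
    (inv : ∀ G : X → ℝ, ∑ x, μ x * ∑ j, G (B j x) = (Fintype.card J : ℝ) * ∑ x, μ x * G x)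
    (tot : ∑ x, μ x = 0) : ∀ x, μ x = 0 := by
  classical
  -- the sign function
  set G : X → ℝ := fun x => if 0 < μ x then 1 else if μ x < 0 then -1 else 0 with hG
  have hGabs : ∀ x, μ x * G x = |μ x| := by
    intro x
    simp only [hG]
    split_ifs with h1 h2
    · rw [abs_of_pos h1]; ring
    · rw [abs_of_neg h2]; ring
    · have : μ x = 0 := le_antisymm (not_lt.1 h1) (not_lt.1 h2)
      simp [this]
  have hGle : ∀ x y, μ x * G y ≤ |μ x| := by
    intro x y
    have : |G y| ≤ 1 := by
      simp only [hG]; split_ifs <;> simp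
    calc μ x * G y ≤ |μ x * G y| := le_abs_self _
      _ = |μ x| * |G y| := abs_mul _ _
      _ ≤ |μ x| * 1 := by gcongr
      _ = |μ x| := mul_one _
  have h1 := inv G
  have h2 : ∑ x, ∑ j : J, (|μ x| - μ x * G (B j x)) = 0 := by
    simp only [Finset.sum_sub_distrib, ← Finset.mul_sum]
    rw [h1]
    simp only [hGabs, Finset.sum_const, Finset.card_univ, nsmul_eq_mul]
    rw [← Finset.mul_sum]
    ring
  have h3 : ∀ x, ∀ j : J, |μ x| - μ x * G (B j x) = 0 := by
    intro x j
    have a1 : ∀ x ∈ (Finset.univ : Finset X), 0 ≤ ∑ j : J, (|μ x| - μ x * G (B j x)) := by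
      intro x _
      exact Finset.sum_nonneg (fun j _ => by have := hGle x (B j x); linarith)
    have a2 := (Finset.sum_eq_zero_iff_of_nonneg a1).1 h2 x (Finset.mem_univ _)
    exact (Finset.sum_eq_zero_iff_of_nonneg
      (fun j _ => by have := hGle x (B j x); linarith)).1 a2 j (Finset.mem_univ _)
  have hpos : ∀ x, 0 < μ x → ∀ j, 0 < μ (B j x) := by
    intro x hx j
    have := h3 x j
    rw [abs_of_pos hx] at this
    have hg : G (B j x) = 1 := by
      have : μ x * (1 - G (B j x)) = 0 := by linarith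
      rcases mul_eq_zero.1 this with h | h
      · exact absurd h hx.ne'
      · linarith
    simp only [hG] at hg
    split_ifs at hg with q1 q2
    · exact q1
    · norm_num at hg
    · norm_num at hg
  have hneg : ∀ x, μ x < 0 → ∀ j, μ (B j x) < 0 := by
    intro x hx j
    have := h3 x j
    rw [abs_of_neg hx] at this
    have hg : G (B j x) = -1 := by
      have : μ x * (1 + G (B j x)) = 0 := by linarith
      rcases mul_eq_zero.1 this with h | h
      · exact absurd h hx.ne
      · linarith
    simp only [hG] at hg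
    split_ifs at hg with q1 q2
    · norm_num at hg
    · exact q2
    · norm_num at hg
  have hnot : ¬ ((∃ x, 0 < μ x) ∧ (∃ x, μ x < 0)) := by
    rintro ⟨⟨x1, hx1⟩, ⟨x2, hx2⟩⟩
    have p1 : x0 ∈ {x | 0 < μ x} := hx0 _ ⟨x1, hx1⟩ (fun x hx => hsupp x (ne_of_gt hx))
      (fun x hx j => hpos x hx j)
    have p2 : x0 ∈ {x | μ x < 0} := hx0 _ ⟨x2, hx2⟩ (fun x hx => hsupp x (ne_of_lt hx))
      (fun x hx j => hneg x hx j)
    simp only [Set.mem_ofPred_eq] at p1 p2
    exact absurd p1 (not_lt.2 (le_of_lt p2))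
  rw [not_and_or] at hnot
  rcases hnot with h | h
  · push Not at h
    intro x
    have := (Finset.sum_eq_zero_iff_of_nonpos (fun x _ => h x)).1 tot x (Finset.mem_univ _)
    exact this
  · push Not at h
    intro x
    exact (Finset.sum_eq_zero_iff_of_nonneg (fun x _ => h x)).1 tot x (Finset.mem_univ _)

theorem sum_push {X α : Type*} [Fintype X] [DecidableEq X] [Fintype α] (p : α → ℝ) (f : α → X)
    (G : X → ℝ) : ∑ x, (∑ a, if f a = x then p a else 0) * G x = ∑ a, p a * G (f a) := by
  simp only [Finset.sum_mul]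
  rw [Finset.sum_comm]
  refine Finset.sum_congr rfl (fun a _ => ?_)
  rw [Finset.sum_eq_single (f a)]
  · simp
  · intro b _ hb
    rw [if_neg (Ne.symm hb), zero_mul]
  · simp

theorem uniq_push {X J α β : Type*} [Fintype X] [Fintype J] [Fintype α] [Fintype β]
    (B : J → X → X) (C : Set X) (x0 : X)
    (hx0 : ∀ U : Set X, U.Nonempty → U ⊆ C → (∀ x ∈ U, ∀ j, B j x ∈ U) → x0 ∈ U)
    (p : α → ℝ) (f : α → X) (p' : β → ℝ) (f' : β → X)
    (hC : ∀ a, p a ≠ 0 → f a ∈ C) (hC' : ∀ b, p' b ≠ 0 → f' b ∈ C)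
    (inv : ∀ G : X → ℝ, ∑ a, p a * ∑ j, G (B j (f a)) = (Fintype.card J : ℝ) * ∑ a, p a * G (f a))
    (inv' : ∀ G : X → ℝ, ∑ b, p' b * ∑ j, G (B j (f' b))
      = (Fintype.card J : ℝ) * ∑ b, p' b * G (f' b))
    (tot : ∑ a, p a = ∑ b, p' b) (G : X → ℝ) :
    ∑ a, p a * G (f a) = ∑ b, p' b * G (f' b) := by
  classical
  set μ : X → ℝ := fun x => (∑ a, if f a = x then p a else 0) - (∑ b, if f' b = x then p' b else 0)
    with hμ
  have hint : ∀ H : X → ℝ, ∑ x, μ x * H x = ∑ a, p a * H (f a) - ∑ b, p' b * H (f' b) := by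
    intro H
    simp only [hμ, sub_mul, Finset.sum_sub_distrib]
    rw [sum_push, sum_push]
  have hz : ∀ x, μ x = 0 := by
    refine uniq_signed B C x0 hx0 μ ?_ ?_ ?_
    · intro x hx
      by_contra hxC
      apply hx
      have e1 : (∑ a, if f a = x then p a else 0) = 0 := by
        refine Finset.sum_eq_zero (fun a _ => ?_)
        split_ifs with h
        · by_contra hp
          exact hxC (h ▸ hC a hp)
        · rfl
      have e2 : (∑ b, if f' b = x then p' b else 0) = 0 := by
        refine Finset.sum_eq_zero (fun b _ => ?_)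
        split_ifs with h
        · by_contra hp
          exact hxC (h ▸ hC' b hp)
        · rfl
      simp only [hμ]
      rw [e1, e2, sub_zero]
    · intro H
      rw [hint H, hint (fun x => ∑ j, H (B j x)), inv H, inv' H]
      ring
    · have := hint (fun _ => 1)
      simp only [mul_one] at this
      rw [this, tot, sub_self]
  have := hint G
  simp only [hz, zero_mul, Finset.sum_const_zero] at this
  linarith

variable {N : ℕ}

/-- potential of a set -/
def pot (A : Finset (Fin (N+1))) : ℕ := ∑ x ∈ A, x.val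

theorem pot_bm_lt {j : Fin (N+1)} (hj : j ≠ Fin.last N) {A : Finset (Fin (N+1))}
    (h1 : j ∉ A) (h2 : j + 1 ∈ A) : pot (bm j A) < pot A := by
  have hval : (j + 1).val = j.val + 1 := Fin.val_add_one_of_lt (Fin.lt_last_iff_ne_last.mpr hj)
  unfold bm pot
  rw [if_pos ⟨h1, h2⟩]
  rw [Finset.sum_insert (by simp [h1])]
  have := Finset.add_sum_erase A (fun x : Fin (N+1) => x.val) h2
  omega

theorem pot_bm_le {j : Fin (N+1)} (hj : j ≠ Fin.last N) (A : Finset (Fin (N+1))) :
    pot (bm j A) ≤ pot A := by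
  by_cases h : j ∉ A ∧ j + 1 ∈ A
  · exact (pot_bm_lt hj h.1 h.2).le
  · unfold bm; rw [if_neg h]

/-- the sorted set with `k` elements -/
def srt (k : ℕ) : Finset (Fin (N+1)) := Finset.univ.filter (fun x => x.val < k)

theorem eq_srt_of_down {A : Finset (Fin (N+1))}
    (h : ∀ j : Fin (N+1), j ≠ Fin.last N → j + 1 ∈ A → j ∈ A) : A = srt A.card := by
  have hdown : ∀ k : ℕ, ∀ x : Fin (N+1), ∀ y : Fin (N+1), y.val + k = x.val → x ∈ A → y ∈ A := by
    intro k
    induction k with
    | zero => 
      intro x y hxy hx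
      have : y = x := Fin.ext (by simpa using hxy)
      rwa [this]
    | succ k ih =>
      intro x y hxy hx
      have hy : y ≠ Fin.last N := by
        intro hh
        have : y.val = N := by rw [hh]; simp
        have := x.isLt
        omega
      have hval : (y + 1).val = y.val + 1 := Fin.val_add_one_of_lt (Fin.lt_last_iff_ne_last.mpr hy)
      exact h y hy (ih x (y+1) (by omega) hx)
  have hsub : A ⊆ srt A.card := by
    intro x hx
    have hs : Finset.univ.filter (fun y : Fin (N+1) => y.val < x.val + 1) ⊆ A := by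
      intro y hy
      simp only [Finset.mem_filter, Finset.mem_univ, true_and] at hy
      exact hdown (x.val - y.val) x y (by omega) hx
    have hc := Finset.card_le_card hs
    rw [Fin.card_filter_val_lt] at hc
    simp only [srt, Finset.mem_filter, Finset.mem_univ, true_and]
    have := x.isLt
    omega
  refine Finset.eq_of_subset_of_card_le hsub ?_
  unfold srt
  rw [Fin.card_filter_val_lt]
  exact min_le_right _ _

/-- diagonal action on families -/
def BM {ι : Type*} (j : Fin (N+1)) (W : ι → Finset (Fin (N+1))) : ι → Finset (Fin (N+1)) :=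
  fun c => bm j (W c)

theorem sorted_reach {ι : Type*} [Fintype ι] (k : ι → ℕ)
    (U : Set (ι → Finset (Fin (N+1)))) (hne : U.Nonempty)
    (hU : U ⊆ {W | ∀ c, (W c).card = k c})
    (hcl : ∀ W ∈ U, ∀ j, BM j W ∈ U) : (fun c => srt (k c)) ∈ U := by
  classical
  obtain ⟨W, hW, hmin⟩ : ∃ W ∈ U, ∀ W' ∈ U, ∑ c, pot (W c) ≤ ∑ c, pot (W' c) := by
    have hfin : (U.toFinite.toFinset).Nonempty := by
      obtain ⟨x, hx⟩ := hne
      exact ⟨x, (Set.Finite.mem_toFinset _).2 hx⟩
    obtain ⟨W, hW, h⟩ := Finset.exists_min_image U.toFinite.toFinset (fun W => ∑ c, pot (W c)) hfin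
    refine ⟨W, (Set.Finite.mem_toFinset _).1 hW, ?_⟩
    intro W' hW'
    exact h W' ((Set.Finite.mem_toFinset _).2 hW')
  have hWe : W = fun c => srt (k c) := by
    funext c
    rw [← hU hW c]
    refine eq_srt_of_down ?_
    intro j hj h1
    by_contra h2
    have hlt : ∑ c, pot (BM j W c) < ∑ c, pot (W c) := by
      refine Finset.sum_lt_sum (fun c _ => pot_bm_le hj _) ⟨c, Finset.mem_univ _, ?_⟩
      exact pot_bm_lt hj h2 h1
    exact absurd (hmin _ (hcl W hW j)) (not_le.2 hlt)
  rw [← hWe]; exact hW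

end Pool.Agent.Work.MPf07634
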